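import Pool.Agent.H444.MH.Stm

set_option autoImplicit false

/-! # Project MH (helper444): CMB and CPL -/

namespace Pool.Agent.H294.MH

open Filter Topology MeasureTheory Complex
open Pool.Agent.H444.MH (ell S_CMB S_CPL)

noncomputable section

namespace CPL

theorem main : Pool.Agent.H444.MH.S_CPL := by
  intro δ hδ
  refine ⟨1 / δ ^ 2 + 2 / δ, by positivity, ?_⟩
  intro y v hyv
  have hpos : 0 < y ^ 2 + v ^ 2 := by
    rcases hyv with h | h
    · have := sq_pos_of_ne_zero h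
      have := sq_nonneg v
      linarith
    · have := sq_pos_of_ne_zero h
      have := sq_nonneg y
      linarith
  have hE : 0 < Real.exp (2 * δ * |v|) := Real.exp_pos _
  have hy0 : 0 ≤ |y| := abs_nonneg y
  have hv0 : 0 ≤ |v| := abs_nonneg v
  have hD : 0 < (1 + |y|) ^ 2 := by positivity
  have h1 : |v| ≤ Real.exp (2 * δ * |v|) / (2 * δ) := by
    rw [le_div_iff₀ (by positivity)]
    have := Real.add_one_le_exp (2 * δ * |v|)
    linarith
  have h2 : v ^ 2 ≤ Real.exp (2 * δ * |v|) / (2 * δ ^ 2) := by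
    rw [le_div_iff₀ (by positivity)]
    have := Real.quadratic_le_exp_of_nonneg (show 0 ≤ 2 * δ * |v| by positivity)
    have h3 : (2 * δ * |v|) ^ 2 = 4 * δ ^ 2 * v ^ 2 := by rw [mul_pow, mul_pow, sq_abs]; ring
    rw [h3] at this
    have h4 : 0 ≤ 2 * δ * |v| := by positivity
    linarith
  have hlast : 0 ≤ max 0 (Real.log (1 / Real.sqrt (y ^ 2 + v ^ 2))) := le_max_left _ _
  have hsplit : (1 / δ ^ 2 + 2 / δ) * (Real.exp (2 * δ * |v|) / (1 + |y|) ^ 2) =
      (2 * (Real.exp (2 * δ * |v|) / (2 * δ ^ 2)) + 4 * (Real.exp (2 * δ * |v|) / (2 * δ))) /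
        (1 + |y|) ^ 2 := by
    field_simp
    ring
  have hlogsqrt : Real.log (Real.sqrt (y ^ 2 + v ^ 2)) = Real.log (y ^ 2 + v ^ 2) / 2 :=
    Real.log_sqrt hpos.le
  rcases le_or_gt 1 |y| with hy | hy
  · have hell : ell y = Real.log (y ^ 2) / 2 := by
      unfold ell
      rw [max_eq_left hy, ← sq_abs, Real.log_pow]
      push_cast; ring
    have hy2 : 0 < y ^ 2 := by
      rw [← sq_abs]; positivity
    have e1 : Real.log (y ^ 2 + v ^ 2) / 2 - Real.log (y ^ 2) / 2 = Real.log (1 + v ^ 2 / y ^ 2) / 2 := by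
      rw [← sub_div, ← Real.log_div hpos.ne' hy2.ne', add_div, div_self hy2.ne']
    rw [hlogsqrt, hell, e1]
    have hq : 0 ≤ v ^ 2 / y ^ 2 := by positivity
    have h3 : 0 ≤ Real.log (1 + v ^ 2 / y ^ 2) := Real.log_nonneg (by linarith)
    have h4 : Real.log (1 + v ^ 2 / y ^ 2) ≤ v ^ 2 / y ^ 2 := by
      have := Real.log_le_sub_one_of_pos (show 0 < 1 + v ^ 2 / y ^ 2 by linarith)
      linarith
    rw [abs_of_nonneg (by linarith)]
    have h5 : v ^ 2 / y ^ 2 / 2 ≤ 2 * v ^ 2 / (1 + |y|) ^ 2 := by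
      rw [div_div, div_le_div_iff₀ (by positivity) hD]
      have h6 : (1 + |y|) ^ 2 ≤ 4 * y ^ 2 := by rw [← sq_abs y]; nlinarith
      have h7 : 0 ≤ v ^ 2 := sq_nonneg v
      nlinarith
    have h8 : 2 * v ^ 2 / (1 + |y|) ^ 2 ≤ (1 / δ ^ 2 + 2 / δ) *
        (Real.exp (2 * δ * |v|) / (1 + |y|) ^ 2) := by
      rw [hsplit]
      refine div_le_div_of_nonneg_right ?_ hD.le
      have : 0 ≤ 4 * (Real.exp (2 * δ * |v|) / (2 * δ)) := by positivity
      linarith
    linarith
  · have hell : ell y = 0 := by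
      unfold ell
      rw [max_eq_right hy.le, Real.log_one]
    rw [hell, sub_zero]
    rcases le_or_gt 1 (y ^ 2 + v ^ 2) with h3 | h3
    · have h4 : 0 ≤ Real.log (Real.sqrt (y ^ 2 + v ^ 2)) :=
        Real.log_nonneg (by rw [Real.one_le_sqrt]; exact h3)
      rw [abs_of_nonneg h4]
      have h5 : Real.sqrt (y ^ 2 + v ^ 2) ≤ 1 + |v| := by
        rw [Real.sqrt_le_left (by positivity)]
        have : y ^ 2 < 1 := by rw [← sq_abs]; nlinarith
        rw [← sq_abs v]
        nlinarith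
      have h6 : Real.log (Real.sqrt (y ^ 2 + v ^ 2)) ≤ |v| := by
        have h7 := Real.log_le_sub_one_of_pos (Real.sqrt_pos.mpr hpos)
        linarith
      have h8 : |v| ≤ (1 / δ ^ 2 + 2 / δ) * (Real.exp (2 * δ * |v|) / (1 + |y|) ^ 2) := by
        rw [hsplit, le_div_iff₀ hD]
        have h9 : (1 + |y|) ^ 2 ≤ 4 := by nlinarith
        have h10 : 0 ≤ 2 * (Real.exp (2 * δ * |v|) / (2 * δ ^ 2)) := by positivity
        have h11 : |v| * (1 + |y|) ^ 2 ≤ |v| * 4 := mul_le_mul_of_nonneg_left h9 hv0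
        linarith
      linarith
    · have h4 : Real.log (Real.sqrt (y ^ 2 + v ^ 2)) ≤ 0 := by
        rw [hlogsqrt]
        have := Real.log_neg hpos h3
        linarith
      rw [abs_of_nonpos h4]
      have h5 : Real.log (1 / Real.sqrt (y ^ 2 + v ^ 2)) = -Real.log (Real.sqrt (y ^ 2 + v ^ 2)) := by
        rw [one_div, Real.log_inv]
      have h6 : -Real.log (Real.sqrt (y ^ 2 + v ^ 2)) ≤
          max 0 (Real.log (1 / Real.sqrt (y ^ 2 + v ^ 2))) := by
        rw [h5]; exact le_max_right _ _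
      have h7 : 0 ≤ (1 / δ ^ 2 + 2 / δ) * (Real.exp (2 * δ * |v|) / (1 + |y|) ^ 2) := by positivity
      linarith

end CPL

namespace CMB

/-- contribution of `[j, j+1]` -/
def c (j : ℕ) (x : ℝ) : ℝ := Real.log (j + 1) - Real.log (max j (min x (j + 1)))

lemma c_tel (x : ℝ) (M : ℕ) (hM : 1 ≤ M) :
    ∑ j ∈ Finset.Ico 1 M, c j x = Real.log M - Real.log (max 1 (min x M)) := by
  induction M, hM using Nat.le_induction with
  | base =>
    simp only [Finset.Ico_self, Finset.sum_empty, Nat.cast_one, Real.log_one, zero_sub]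
    rw [max_eq_left (min_le_right x 1), Real.log_one, neg_zero]
  | succ M hM ih =>
    rw [Finset.sum_Ico_succ_top hM, ih]
    unfold c
    have hM' : (1 : ℝ) ≤ M := by exact_mod_cast hM
    push_cast
    rcases le_or_gt x M with h | h
    · rw [min_eq_left h, min_eq_left (show x ≤ (M : ℝ) + 1 by linarith), max_eq_left h]
      ring
    · rw [min_eq_right h.le, max_eq_right hM']
      have h1 : (M : ℝ) ≤ min x (M + 1) := le_min h.le (by linarith)
      rw [max_eq_right h1, max_eq_right (hM'.trans h1)]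
      ring

lemma c_nonneg (j : ℕ) (hj : 1 ≤ j) (x : ℝ) : 0 ≤ c j x := by
  unfold c
  have hj' : (1 : ℝ) ≤ j := by exact_mod_cast hj
  have h1 : max (j : ℝ) (min x (j + 1)) ≤ j + 1 := max_le (by linarith) (min_le_right _ _)
  have h2 : 0 < max (j : ℝ) (min x (j + 1)) := lt_of_lt_of_le (by linarith) (le_max_left _ _)
  have := Real.log_le_log h2 h1
  linarith

lemma c_le (j : ℕ) (hj : 1 ≤ j) (x : ℝ) : c j x ≤ Real.log (j + 1) - Real.log j := by
  unfold c
  have hj' : (1 : ℝ) ≤ j := by exact_mod_cast hj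
  have := Real.log_le_log (show (0 : ℝ) < j by linarith) (le_max_left (j : ℝ) (min x (j + 1)))
  linarith

lemma c_eq (j : ℕ) {x : ℝ} (hx : x ≤ j) : c j x = Real.log (j + 1) - Real.log j := by
  unfold c
  rw [min_eq_left (by linarith), max_eq_left hx]

lemma c_zero (j : ℕ) {x : ℝ} (hx : (j : ℝ) + 1 ≤ x) : c j x = 0 := by
  unfold c
  rw [min_eq_right hx, max_eq_right (by linarith), sub_self]

lemma lam_le (j : ℕ) (hj : 1 ≤ j) : Real.log ((j : ℝ) + 1) - Real.log j ≤ 1 / j := by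
  have hj' : (0 : ℝ) < j := by exact_mod_cast hj
  rw [← Real.log_div (by linarith) hj'.ne']
  have h1 := Real.log_le_sub_one_of_pos (show 0 < ((j : ℝ) + 1) / j by positivity)
  have h2 : ((j : ℝ) + 1) / j - 1 = 1 / j := by field_simp; ring
  linarith

open Classical in
/-- the count in `[j, j+1]` -/
lemma one_j {ι : Type} (S : Finset ι) (m z : ι → ℝ) (hm : ∀ s ∈ S, 0 ≤ m s) (j : ℕ) (hj : 1 ≤ j) (p : ℝ)
    (hp : 0 ≤ p) :
    |∑ s ∈ S, m s * c j |z s| - (Real.log ((j : ℝ) + 1) - Real.log j) * (j * p)| ≤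
      (Real.log ((j : ℝ) + 1) - Real.log j) *
      (|(∑ s ∈ S.filter (fun s => |z s| ≤ j), m s) - j * p| +
        |(∑ s ∈ S.filter (fun s => |z s| ≤ (j + 1 : ℕ)), m s) - (j + 1 : ℕ) * p| + p) := by
  obtain ⟨lam, hlam⟩ : ∃ lam, lam = Real.log ((j : ℝ) + 1) - Real.log j := ⟨_, rfl⟩
  have hlam0 : 0 ≤ lam := by
    rw [hlam]; exact le_trans (c_nonneg j hj 0) (c_le j hj 0)
  rw [← hlam]
  have h1 : lam * ∑ s ∈ S.filter (fun s => |z s| ≤ j), m s ≤ ∑ s ∈ S, m s * c j |z s| := by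
    rw [Finset.mul_sum, Finset.sum_filter]
    refine Finset.sum_le_sum fun s hs => ?_
    split_ifs with h
    · rw [c_eq j h, hlam, mul_comm]
    · exact mul_nonneg (hm s hs) (c_nonneg j hj _)
  have h2 : ∑ s ∈ S, m s * c j |z s| ≤ lam * ∑ s ∈ S.filter (fun s => |z s| ≤ (j + 1 : ℕ)), m s := by
    rw [Finset.mul_sum, Finset.sum_filter]
    refine Finset.sum_le_sum fun s hs => ?_
    split_ifs with h
    · have := mul_le_mul_of_nonneg_left (c_le j hj |z s|) (hm s hs)
      rw [← hlam] at this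
      linarith
    · push_cast at h
      rw [c_zero j (by linarith), mul_zero]
  have h3 := neg_abs_le ((∑ s ∈ S.filter (fun s => |z s| ≤ j), m s) - j * p)
  have h4 := le_abs_self ((∑ s ∈ S.filter (fun s => |z s| ≤ (j + 1 : ℕ)), m s) - (j + 1 : ℕ) * p)
  have h5 := abs_nonneg ((∑ s ∈ S.filter (fun s => |z s| ≤ j), m s) - j * p)
  have h6 := abs_nonneg ((∑ s ∈ S.filter (fun s => |z s| ≤ (j + 1 : ℕ)), m s) - (j + 1 : ℕ) * p)
  obtain ⟨A, hA⟩ : ∃ A, A = |(∑ s ∈ S.filter (fun s => |z s| ≤ j), m s) - j * p| := ⟨_, rfl⟩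
  obtain ⟨B, hB⟩ : ∃ B, B = |(∑ s ∈ S.filter (fun s => |z s| ≤ (j + 1 : ℕ)), m s) -
    (j + 1 : ℕ) * p| := ⟨_, rfl⟩
  rw [← hA, ← hB]
  rw [← hA] at h3 h5
  rw [← hB] at h4 h6
  have h7 : lam * (j * p - A) ≤ lam * ∑ s ∈ S.filter (fun s => |z s| ≤ j), m s :=
    mul_le_mul_of_nonneg_left (by linarith) hlam0
  have h8 : lam * ∑ s ∈ S.filter (fun s => |z s| ≤ (j + 1 : ℕ)), m s ≤ lam * ((j + 1) * p + B) := by
    refine mul_le_mul_of_nonneg_left ?_ hlam0
    rw [Nat.cast_add, Nat.cast_one] at h4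
    rw [Nat.cast_add, Nat.cast_one]
    linarith
  have e1 : lam * (j * p - A) = lam * (j * p) - lam * A := by ring
  have e2 : lam * ((j + 1) * p + B) = lam * (j * p) + lam * p + lam * B := by ring
  have e3 : lam * (A + B + p) = lam * A + lam * B + lam * p := by ring
  have f1 : 0 ≤ lam * A := mul_nonneg hlam0 h5
  have f2 : 0 ≤ lam * B := mul_nonneg hlam0 h6
  have f3 : 0 ≤ lam * p := mul_nonneg hlam0 hp
  rw [abs_le, e3]
  rw [e1] at h7
  rw [e2] at h8
  constructor
  · linarith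
  · linarith

/-- the truncated logarithm -/
def g (M : ℕ) (x : ℝ) : ℝ := Real.log M - Real.log (max 1 (min |x| M))

lemma g_eq (M : ℕ) {x : ℝ} (hx : |x| ≤ M) : g M x = Real.log M - ell x := by
  unfold g ell
  rw [min_eq_left hx, max_comm]

lemma g_zero (M : ℕ) (hM : 1 ≤ M) {x : ℝ} (hx : (M : ℝ) ≤ |x|) : g M x = 0 := by
  unfold g
  have hM' : (1 : ℝ) ≤ M := by exact_mod_cast hM
  rw [min_eq_right hx, max_eq_right hM', sub_self]

open Classical in
lemma main_sum {ι : Type} (S : Finset ι) (m z : ι → ℝ) (M : ℕ) (hM : 1 ≤ M) :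
    ∑ s ∈ S, m s * g M (z s) = ∑ j ∈ Finset.Ico 1 M, ∑ s ∈ S, m s * c j |z s| := by
  rw [Finset.sum_comm]
  refine Finset.sum_congr rfl fun s _ => ?_
  rw [← Finset.mul_sum, c_tel _ M hM]
  rfl

/-- the boundary term -/
lemma bdy (Y M : ℕ) (hY : 1 ≤ Y) (hM : 2 * Y + 1 ≤ M) (x : ℝ) :
    |g M (x - Y) - (if |x| ≤ M then Real.log M - ell (x - Y) else 0)| ≤
      2 * (Y : ℝ) / M * ((if |x| ≤ (M + Y : ℕ) then 1 else 0) -
        (if |x| ≤ (M - Y - 1 : ℕ) then 1 else 0)) := by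
  have hY' : (1 : ℝ) ≤ Y := by exact_mod_cast hY
  have hM' : 2 * (Y : ℝ) + 1 ≤ M := by exact_mod_cast hM
  have hM0 : (0 : ℝ) < M := by linarith
  have hc : ((M - Y - 1 : ℕ) : ℝ) = M - Y - 1 := by
    rw [Nat.sub_sub, Nat.cast_sub (by omega)]
    push_cast; ring
  rw [hc, Nat.cast_add]
  have hnn : 0 ≤ 2 * (Y : ℝ) / M := by positivity
  have habs1 : |x| ≤ |x - Y| + Y := by
    have := abs_add_le (x - Y) Y
    rw [sub_add_cancel, abs_of_nonneg (by linarith : (0 : ℝ) ≤ Y)] at this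
    exact this
  have habs2 : |x - Y| ≤ |x| + Y := by
    have := abs_sub x (Y : ℝ)
    rw [abs_of_nonneg (by linarith : (0 : ℝ) ≤ Y)] at this
    exact this
  have hRHS0 : 0 ≤ 2 * (Y : ℝ) / M * ((if |x| ≤ (M : ℝ) + Y then 1 else 0) -
        (if |x| ≤ (M : ℝ) - Y - 1 then 1 else 0)) := by
    refine mul_nonneg hnn ?_
    by_cases h1 : |x| ≤ (M : ℝ) - Y - 1
    · rw [if_pos h1, if_pos (by linarith)]; norm_num
    · rw [if_neg h1]
      split_ifs <;> norm_num
  by_cases h1 : |x| ≤ M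
  · rw [if_pos h1]
    by_cases h2 : |x - Y| ≤ M
    · rw [g_eq M h2, sub_self, abs_zero]
      exact hRHS0
    · push Not at h2
      rw [g_zero M (by omega) h2.le, if_pos (by linarith), if_neg (by linarith)]
      rw [zero_sub, abs_neg, sub_zero, mul_one]
      have h3 : ell (x - Y) = Real.log |x - Y| := by
        unfold ell
        rw [max_eq_left (by linarith)]
      rw [h3, abs_sub_comm, ← Real.log_div (by linarith) hM0.ne']
      have h4 : 1 ≤ |x - Y| / M := by rw [one_le_div hM0]; exact h2.le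
      rw [abs_of_nonneg (Real.log_nonneg h4)]
      have h5 := Real.log_le_sub_one_of_pos (show 0 < |x - Y| / M by linarith)
      have h6 : |x - Y| / M - 1 ≤ Y / M := by
        rw [div_sub_one hM0.ne']
        exact div_le_div_of_nonneg_right (by linarith) hM0.le
      have h7 : (Y : ℝ) / M ≤ 2 * Y / M := div_le_div_of_nonneg_right (by linarith) hM0.le
      linarith
  · rw [if_neg h1, sub_zero]
    push Not at h1
    by_cases h2 : |x - Y| ≤ M
    · rw [g_eq M h2, if_pos (by linarith), if_neg (by linarith), sub_zero, mul_one]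
      have h3 : ell (x - Y) = Real.log |x - Y| := by
        unfold ell
        rw [max_eq_left (by linarith)]
      have h8 : 0 < |x - Y| := by linarith
      rw [h3, ← Real.log_div hM0.ne' h8.ne']
      have h4 : 1 ≤ M / |x - Y| := by rw [one_le_div h8]; exact h2
      rw [abs_of_nonneg (Real.log_nonneg h4)]
      have h5 := Real.log_le_sub_one_of_pos (show 0 < M / |x - Y| by linarith)
      have h6 : M / |x - Y| - 1 ≤ 2 * Y / M := by
        rw [div_sub_one h8.ne', div_le_div_iff₀ h8 hM0]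
        have h9 : M - |x - Y| ≤ Y := by linarith
        have h10 : (M : ℝ) ≤ 2 * |x - Y| := by linarith
        nlinarith
      linarith
    · push Not at h2
      rw [g_zero M (by omega) h2.le, abs_zero]
      exact hRHS0

open Classical in
theorem main : Pool.Agent.H444.MH.S_CMB := by
  intro ι S m y Y M hm hY hM
  have hM1 : 1 ≤ M := by omega
  have hπ : 0 ≤ 1 / Real.pi := by positivity
  -- decomposition
  have key : ∑ s ∈ S.filter (fun s => |y s| ≤ M), m s * (ell (y s - Y) - ell (y s)) =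
      (∑ s ∈ S, m s * g M (y s) - ∑ s ∈ S, m s * g M (y s - Y)) +
      ∑ s ∈ S, m s * (g M (y s - Y) - (if |y s| ≤ M then Real.log M - ell (y s - Y) else 0)) := by
    rw [Finset.sum_filter, ← Finset.sum_sub_distrib, ← Finset.sum_add_distrib]
    refine Finset.sum_congr rfl fun s _ => ?_
    split_ifs with h
    · rw [g_eq M h]; ring
    · push Not at h
      rw [g_zero M hM1 h.le]; ring
  rw [key]
  have hb : |∑ s ∈ S, m s * (g M (y s - Y) - (if |y s| ≤ M then Real.log M - ell (y s - Y) else 0))| ≤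
      2 * (Y : ℝ) / M * (|(∑ s ∈ S.filter (fun s => |y s| ≤ (M + Y : ℕ)), m s) - (M + Y : ℕ) / Real.pi| +
      |(∑ s ∈ S.filter (fun s => |y s| ≤ (M - Y - 1 : ℕ)), m s) - (M - Y - 1 : ℕ) / Real.pi| +
        (2 * Y + 1) / Real.pi) := by
    have hnn : 0 ≤ 2 * (Y : ℝ) / M := by positivity
    have h1 : |∑ s ∈ S, m s * (g M (y s - Y) -
        (if |y s| ≤ M then Real.log M - ell (y s - Y) else 0))| ≤
        2 * (Y : ℝ) / M * ((∑ s ∈ S.filter (fun s => |y s| ≤ (M + Y : ℕ)), m s) -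
          ∑ s ∈ S.filter (fun s => |y s| ≤ (M - Y - 1 : ℕ)), m s) := by
      refine (Finset.abs_sum_le_sum_abs _ _).trans ?_
      rw [Finset.sum_filter, Finset.sum_filter, ← Finset.sum_sub_distrib, Finset.mul_sum]
      refine Finset.sum_le_sum fun s hs => ?_
      rw [abs_mul, abs_of_nonneg (hm s hs)]
      refine (mul_le_mul_of_nonneg_left (bdy Y M hY hM (y s)) (hm s hs)).trans (le_of_eq ?_)
      split_ifs <;> ring
    refine h1.trans (mul_le_mul_of_nonneg_left ?_ hnn)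
    have h2 := le_abs_self ((∑ s ∈ S.filter (fun s => |y s| ≤ (M + Y : ℕ)), m s) -
      (M + Y : ℕ) / Real.pi)
    have h3 := neg_abs_le ((∑ s ∈ S.filter (fun s => |y s| ≤ (M - Y - 1 : ℕ)), m s) -
      (M - Y - 1 : ℕ) / Real.pi)
    have hc : ((M - Y - 1 : ℕ) : ℝ) = M - Y - 1 := by
      rw [Nat.sub_sub, Nat.cast_sub (by omega)]
      push_cast; ring
    have h4 : ((M + Y : ℕ) : ℝ) / Real.pi - ((M - Y - 1 : ℕ) : ℝ) / Real.pi =
        (2 * Y + 1) / Real.pi := by
      rw [hc]; push_cast; ring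
    linarith
  have ha : |∑ s ∈ S, m s * g M (y s) - ∑ s ∈ S, m s * g M (y s - Y)| ≤
      ∑ j ∈ Finset.Ico 1 M, (1 / (j : ℝ)) *
      (|(∑ s ∈ S.filter (fun s => |y s| ≤ j), m s) - j / Real.pi| +
        |(∑ s ∈ S.filter (fun s => |y s| ≤ (j + 1 : ℕ)), m s) - (j + 1 : ℕ) / Real.pi| +
        |(∑ s ∈ S.filter (fun s => |y s - Y| ≤ j), m s) - j / Real.pi| +
        |(∑ s ∈ S.filter (fun s => |y s - Y| ≤ (j + 1 : ℕ)), m s) - (j + 1 : ℕ) / Real.pi| +
          2 / Real.pi) := by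
    rw [main_sum S m y M hM1, main_sum S m (fun s => y s - Y) M hM1, ← Finset.sum_sub_distrib]
    refine (Finset.abs_sum_le_sum_abs _ _).trans (Finset.sum_le_sum fun j hj => ?_)
    have hj1 : 1 ≤ j := (Finset.mem_Ico.mp hj).1
    have h1 := one_j S m y hm j hj1 (1 / Real.pi) hπ
    have h2 := one_j S m (fun s => y s - Y) hm j hj1 (1 / Real.pi) hπ
    simp only [mul_one_div] at h1 h2
    have h3 := lam_le j hj1
    have hlam0 : 0 ≤ Real.log ((j : ℝ) + 1) - Real.log j :=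
      le_trans (c_nonneg j hj1 0) (c_le j hj1 0)
    have h4 := abs_sub_le (∑ s ∈ S, m s * c j |y s|)
      ((Real.log ((j : ℝ) + 1) - Real.log j) * (j / Real.pi)) (∑ s ∈ S, m s * c j |y s - Y|)
    rw [abs_sub_comm ((Real.log ((j : ℝ) + 1) - Real.log j) * (j / Real.pi))] at h4
    refine h4.trans ((add_le_add h1 h2).trans ?_)
    rw [← mul_add]
    refine mul_le_mul h3 (le_of_eq ?_) ?_ (by positivity)
    · ring
    · positivity
  exact (abs_add_le _ _).trans (by linarith)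

end CMB

theorem t_CMB : Pool.Agent.H444.MH.S_CMB := CMB.main

theorem t_CPL : Pool.Agent.H444.MH.S_CPL := CPL.main

end

end Pool.Agent.H294.MH
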